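import Mathlib

/-! Regular sequences: in a Noetherian local ring with a regular sequence of length `n`, every
system of `n` elements of the maximal ideal with zero-dimensional quotient is regular. -/

set_option autoImplicit false

open scoped Pointwise
open CategoryTheory Abelian Limits RingTheory.Sequence IsSMulRegular

namespace Pool.Agent.R795.Deg

section

variable {R : Type} [CommRing R] [IsLocalRing R]

/-- Nakayama -/
theorem smul_lt (M : Type) [AddCommGroup M] [Module R M] [Module.Finite R M] [Nontrivial M] :
    IsLocalRing.maximalIdeal R • (⊤ : Submodule R M) < ⊤ := by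
  rw [lt_top_iff_ne_top]
  intro h
  have h1 := Submodule.eq_bot_of_le_smul_of_le_jacobson_bot (IsLocalRing.maximalIdeal R)
    (⊤ : Submodule R M) Module.Finite.fg_top h.ge (IsLocalRing.maximalIdeal_le_jacobson _)
  exact top_ne_bot h1

theorem nontrivial_quot (M : Type) [AddCommGroup M] [Module R M] [Module.Finite R M]
    [Nontrivial M] (y : R) (hy : y ∈ IsLocalRing.maximalIdeal R) :
    Nontrivial (QuotSMulTop y M) := by
  apply Submodule.Quotient.nontrivial_iff.mpr
  intro h
  have h1 := smul_lt (R := R) M
  apply h1.ne
  rw [eq_top_iff]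
  intro z _
  have hz : z ∈ y • (⊤ : Submodule R M) := by
    rw [h]
    exact Submodule.mem_top
  obtain ⟨w, -, rfl⟩ := (Submodule.mem_smul_pointwise_iff_exists _ _ _).mp hz
  exact Submodule.smul_mem_smul hy Submodule.mem_top

variable [IsNoetherianRing R]

/-- exchange (Rees) -/
theorem exchange
    (M : Type) [AddCommGroup M] [Module R M] [Module.Finite R M] [Nontrivial M]
    (n : ℕ) (xs : List R) (hlen : xs.length = n + 1)
    (hm : ∀ x ∈ xs, x ∈ IsLocalRing.maximalIdeal R) (hreg : IsRegular M xs)
    (y : R) (hy : y ∈ IsLocalRing.maximalIdeal R) (hyM : IsSMulRegular M y) :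
    ∃ ys : List R, ys.length = n ∧ (∀ x ∈ ys, x ∈ IsLocalRing.maximalIdeal R) ∧
      IsRegular (QuotSMulTop y M) ys := by
  let I := IsLocalRing.maximalIdeal R
  have h1 : I • (⊤ : Submodule R (ModuleCat.of R M)) < ⊤ := smul_lt (R := R) M
  let N : ModuleCat.{0} R := ModuleCat.of R (R ⧸ I)
  have hN : Module.support R N = PrimeSpectrum.zeroLocus I := by
    change Module.support R (R ⧸ I) = _
    rw [Module.support_eq_zeroLocus, Ideal.annihilator_quotient]
  have h_ext := ModuleCat.subsingleton_ext_of_exists_isRegular I N hN.subset (ModuleCat.of R M) h1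
    xs hm hreg
  have hnt : Nontrivial (QuotSMulTop y M) := nontrivial_quot M y hy
  have h2 : I • (⊤ : Submodule R (ModuleCat.of R (QuotSMulTop y M))) < ⊤ :=
    smul_lt (R := R) (QuotSMulTop y M)
  refine ModuleCat.exists_isRegular_of_exists_subsingleton_ext I n
    (ModuleCat.of R (QuotSMulTop y M)) h2 N hN ?_
  intro i hi
  have hyM' : IsSMulRegular (ModuleCat.of R M) y := hyM
  have zero1 := AddCommGrpCat.isZero_of_iff_subsingleton.mpr (h_ext i (by omega))
  have zero2 := AddCommGrpCat.isZero_of_iff_subsingleton.mpr (h_ext (i + 1) (by omega))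
  exact AddCommGrpCat.subsingleton_of_isZero <| ShortComplex.Exact.isZero_of_both_zeros
    ((Ext.covariant_sequence_exact₃' N hyM'.smulShortComplex_shortExact) i (i + 1) rfl)
    (zero1.eq_zero_of_src _) (zero2.eq_zero_of_tgt _)

/-- depth is at most the dimension of `R ⧸ p` for an associated prime `p` -/
theorem length_le_of_associated (n : ℕ) :
    ∀ (M : Type) [AddCommGroup M] [Module R M] [Module.Finite R M] (rs : List R),
      rs.length = n → (∀ r ∈ rs, r ∈ IsLocalRing.maximalIdeal R) → IsRegular M rs →
      ∀ p : Ideal R, IsAssociatedPrime p M → (n : WithBot ℕ∞) ≤ ringKrullDim (R ⧸ p) := by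
  induction n with
  | zero =>
    intro M _ _ _ rs hl hm hreg p hp
    have := hp.1
    have : Nontrivial (R ⧸ p) := Ideal.Quotient.nontrivial_iff.2 this.ne_top
    simpa using ringKrullDim_nonneg_of_nontrivial (R := R ⧸ p)
  | succ n ih =>
    intro M _ _ _ rs hl hm hreg p hp
    obtain ⟨x, rs, rfl⟩ : ∃ x l, rs = x :: l := by
      cases rs with
      | nil => simp at hl
      | cons x l => exact ⟨x, l, rfl⟩
    have hpp : p.IsPrime := hp.1
    rw [isRegular_cons_iff] at hreg
    obtain ⟨hx, hrs⟩ := hreg
    have hxm : x ∈ IsLocalRing.maximalIdeal R := hm x (by simp)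
    -- the submodule of elements killed by p
    let N : Submodule R M := Submodule.torsionBySet R M p
    have hNmem : ∀ m : M, m ∈ N ↔ ∀ r ∈ p, r • m = 0 := by
      intro m
      simp only [N, Submodule.mem_torsionBySet_iff]
      exact ⟨fun h r hr => h ⟨r, hr⟩, fun h r => h r r.2⟩
    obtain ⟨-, m0, hm0⟩ := isAssociatedPrime_iff.1 hp
    have hNm0 : m0 ∈ N := by
      rw [hNmem]
      intro r hr
      rw [hm0, Submodule.mem_colon_singleton] at hr
      simpa using hr
    have hm0ne : m0 ≠ 0 := by
      rintro rfl
      apply hpp.ne_top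
      rw [hm0]
      rw [eq_top_iff]
      intro r _
      rw [Submodule.mem_colon_singleton]
      simp
    have hNnt : Nontrivial N := ⟨⟨m0, hNm0⟩, 0, by
      intro h
      exact hm0ne (congrArg Subtype.val h)⟩
    obtain ⟨m1, hm1N, hm1⟩ : ∃ m1 ∈ N, m1 ∉ x • (⊤ : Submodule R M) := by
      by_contra hcon
      push Not at hcon
      have hle : N ≤ IsLocalRing.maximalIdeal R • N := by
        intro m hmN
        obtain ⟨m', -, hm'⟩ := (Submodule.mem_smul_pointwise_iff_exists _ _ _).mp (hcon m hmN)
        rw [← hm']
        refine Submodule.smul_mem_smul hxm ?_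
        rw [hNmem]
        intro r hr
        have h1 : x • (r • m') = x • (0 : M) := by
          rw [smul_zero, smul_comm, hm']
          exact (hNmem m).1 hmN r hr
        exact hx h1
      have h1 := Submodule.eq_bot_of_le_smul_of_le_jacobson_bot (IsLocalRing.maximalIdeal R)
        N (IsNoetherian.noetherian N) hle (IsLocalRing.maximalIdeal_le_jacobson _)
      rw [h1] at hNm0
      exact hm0ne (by simpa using hNm0)
    let b : QuotSMulTop x M := Submodule.Quotient.mk m1
    have hb : b ≠ 0 := by
      intro h
      exact hm1 ((Submodule.Quotient.mk_eq_zero _).1 h)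
    obtain ⟨q, hq, hqle⟩ := exists_le_isAssociatedPrime_of_isNoetherianRing R b hb
    have hqp : q.IsPrime := hq.1
    have hpq : p ≤ q := by
      intro r hr
      apply hqle
      rw [Submodule.mem_colon_singleton, Submodule.mem_bot]
      change r • (Submodule.Quotient.mk m1 : QuotSMulTop x M) = 0
      rw [← Submodule.Quotient.mk_smul, (hNmem m1).1 hm1N r hr]
      rfl
    have hxq : x ∈ q := by
      apply hqle
      rw [Submodule.mem_colon_singleton, Submodule.mem_bot]
      change x • (Submodule.Quotient.mk m1 : QuotSMulTop x M) = 0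
      rw [← Submodule.Quotient.mk_smul, Submodule.Quotient.mk_eq_zero]
      exact Submodule.smul_mem_pointwise_smul _ _ _ Submodule.mem_top
    have hxp : x ∉ p := by
      intro hxp
      apply hm0ne
      have h1 : x • m0 = x • (0 : M) := by
        rw [smul_zero]
        exact (hNmem m0).1 hNm0 x hxp
      exact hx h1
    have h1 := ih (QuotSMulTop x M) rs (by simpa using hl)
      (fun r hr => hm r (by simp [hr])) hrs q hq
    -- dimension drop
    have h2 : ringKrullDim (R ⧸ q) + 1 ≤ ringKrullDim (R ⧸ p) := by
      have hnzd : (Ideal.Quotient.mk p x) ∈ nonZeroDivisors (R ⧸ p) := by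
        apply mem_nonZeroDivisors_of_ne_zero
        intro h
        exact hxp (Ideal.Quotient.eq_zero_iff_mem.1 h)
      have h3 := ringKrullDim_quotient_succ_le_of_nonZeroDivisor hnzd
      refine le_trans ?_ h3
      gcongr
      let f : (R ⧸ p) →+* (R ⧸ q) := Ideal.Quotient.factor hpq
      refine ringKrullDim_le_of_surjective
        (Ideal.Quotient.lift (Ideal.span {Ideal.Quotient.mk p x}) f ?_) ?_
      · intro a ha
        obtain ⟨c, rfl⟩ := Ideal.mem_span_singleton'.1 ha
        rw [map_mul]
        have : f (Ideal.Quotient.mk p x) = 0 := by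
          simp only [f, Ideal.Quotient.factor_mk]
          exact Ideal.Quotient.eq_zero_iff_mem.2 hxq
        rw [this, mul_zero]
      · apply Ideal.Quotient.lift_surjective_of_surjective
        exact Ideal.Quotient.factor_surjective hpq
    calc ((n + 1 : ℕ) : WithBot ℕ∞) = (n : WithBot ℕ∞) + 1 := by push_cast; rfl
      _ ≤ ringKrullDim (R ⧸ q) + 1 := by gcongr
      _ ≤ _ := h2

theorem supportDim_le_add_length (M : Type) [AddCommGroup M] [Module R M] [Module.Finite R M]
    (fs : List R) (hm : ∀ r ∈ fs, r ∈ IsLocalRing.maximalIdeal R) :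
    Module.supportDim R M ≤
      Module.supportDim R (M ⧸ (Ideal.ofList fs • (⊤ : Submodule R M))) + fs.length := by
  induction fs generalizing M with
  | nil =>
    rw [Ideal.ofList_nil, Submodule.bot_smul]
    simpa using (Module.supportDim_eq_of_equiv (Submodule.quotEquivOfEqBot ⊥ rfl)).ge
  | cons x fs ih =>
    have h1 := Module.supportDim_le_supportDim_quotSMulTop_succ (R := R) (M := M)
      (x := x) (hm x (by simp))
    have h2 := ih (QuotSMulTop x M) (fun r hr => hm r (by simp [hr]))
    have h3 := Module.supportDim_eq_of_equiv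
      (Submodule.quotOfListConsSMulTopEquivQuotSMulTopInner M x fs)
    refine le_trans h1 ?_
    rw [h3]
    simp only [List.length_cons, Nat.cast_add, Nat.cast_one]
    rw [← add_assoc]
    gcongr

/-- systems of parameters of length the depth are regular -/
theorem isRegular_of_supportDim_le (n : ℕ) :
    ∀ (M : Type) [AddCommGroup M] [Module R M] [Module.Finite R M] [Nontrivial M] (xs : List R),
      xs.length = n → (∀ r ∈ xs, r ∈ IsLocalRing.maximalIdeal R) → IsRegular M xs →
      ∀ fs : List R, fs.length = n → (∀ r ∈ fs, r ∈ IsLocalRing.maximalIdeal R) →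
      Module.supportDim R (M ⧸ (Ideal.ofList fs • (⊤ : Submodule R M))) ≤ 0 →
      IsRegular M fs := by
  induction n with
  | zero =>
    intro M _ _ _ _ xs _ _ _ fs hfs _ _
    have : fs = [] := List.length_eq_zero_iff.1 hfs
    subst this
    exact IsRegular.nil R M
  | succ n ih =>
    intro M _ _ _ _ xs hxl hxm hxreg fs hfl hfm hdim
    obtain ⟨f, fs, rfl⟩ : ∃ x l, fs = x :: l := by
      cases fs with
      | nil => simp at hfl
      | cons x l => exact ⟨x, l, rfl⟩
    have hfl' : fs.length = n := by simpa using hfl
    have hfmem : f ∈ IsLocalRing.maximalIdeal R := hfm f (by simp)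
    have hfs : ∀ r ∈ fs, r ∈ IsLocalRing.maximalIdeal R := fun r hr => hfm r (by simp [hr])
    have hreg : IsSMulRegular M f := by
      by_contra hcon
      have h1 : f ∈ ⋃ p ∈ associatedPrimes R M, (p : Set R) := by
        rw [biUnion_associatedPrimes_eq_compl_regular]
        exact hcon
      simp only [Set.mem_iUnion] at h1
      obtain ⟨p, hp, hfp⟩ := h1
      have hp' : IsAssociatedPrime p M := hp
      have h2 := length_le_of_associated (n + 1) M xs hxl hxm hxreg p hp'
      have h3 := supportDim_le_add_length (R := R) (R ⧸ p) fs hfs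
      have h4 : Module.supportDim R ((R ⧸ p) ⧸ (Ideal.ofList fs • (⊤ : Submodule R (R ⧸ p)))) ≤ 0 := by
        refine le_trans ?_ hdim
        have hsub : Module.support R ((R ⧸ p) ⧸ (Ideal.ofList fs • (⊤ : Submodule R (R ⧸ p)))) ⊆
            Module.support R (M ⧸ (Ideal.ofList (f :: fs) • (⊤ : Submodule R M))) := by
          rw [Module.support_quotient, Module.support_quotient]
          rintro z ⟨hz1, hz2⟩
          have hpz : p ≤ z.asIdeal := by
            have := Module.annihilator_le_of_mem_support hz1
            rwa [Ideal.annihilator_quotient] at this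
          refine ⟨?_, ?_⟩
          · rw [Module.mem_support_iff_of_finite]
            refine le_trans ?_ hpz
            have := hp'.annihilator_le
            rwa [Submodule.annihilator_top] at this
          · rw [PrimeSpectrum.mem_zeroLocus] at hz2 ⊢
            rw [Ideal.ofList_cons]
            intro w hw
            have hle : Ideal.span {f} ⊔ Ideal.ofList fs ≤ z.asIdeal := by
              refine sup_le ?_ hz2
              rw [Ideal.span_singleton_le_iff_mem]
              exact hpz hfp
            exact hle hw
        unfold Module.supportDim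
        exact Order.krullDim_le_of_strictMono (Set.inclusion hsub) (fun a b hab => hab)
      rw [Module.supportDim_quotient_eq_ringKrullDim] at h3
      have h5 : ((n + 1 : ℕ) : WithBot ℕ∞) ≤ (n : ℕ) := by
        calc ((n + 1 : ℕ) : WithBot ℕ∞) ≤ _ := h2
          _ ≤ _ := h3
          _ ≤ 0 + (n : ℕ) := by
            rw [hfl']
            gcongr
          _ = _ := by simp
      have h6 : n + 1 ≤ n := by exact_mod_cast h5
      omega
    obtain ⟨ys, hyl, hym, hyreg⟩ := exchange M n xs hxl hxm hxreg f hfmem hreg
    have hnt : Nontrivial (QuotSMulTop f M) := nontrivial_quot M f hfmem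
    rw [isRegular_cons_iff]
    refine ⟨hreg, ih (QuotSMulTop f M) ys hyl hym hyreg fs hfl' hfs ?_⟩
    rw [Module.supportDim_eq_of_equiv
      (Submodule.quotOfListConsSMulTopEquivQuotSMulTopInner M f fs)] at hdim
    exact hdim

end

end Pool.Agent.R795.Deg
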