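import Mathlib

/-! A matrix of finite order over `ℂ` is diagonalizable. -/

set_option autoImplicit false

namespace Pool.Agent.R795.Deg

open Module Matrix

theorem exists_eigenbasis {n : ℕ} (f : Module.End ℂ (Fin n → ℂ)) (h : ⨆ μ : ℂ, f.eigenspace μ = ⊤) :
    ∃ (b : Fin n → (Fin n → ℂ)) (l : Fin n → ℂ), LinearIndependent ℂ b ∧ ∀ i, f (b i) = l i • b i := by
  let t : Set (Fin n → ℂ) := {v | ∃ μ : ℂ, f v = μ • v}
  have ht : Submodule.span ℂ t = ⊤ := by
    rw [eq_top_iff, ← h, iSup_le_iff]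
    intro μ v hv
    apply Submodule.subset_span
    exact ⟨μ, Module.End.mem_eigenspace_iff.1 hv⟩
  obtain ⟨b, hbt, hbs, hbl⟩ := exists_linearIndependent ℂ t
  rw [ht] at hbs
  let B : Basis b ℂ (Fin n → ℂ) := Basis.mk hbl (by rw [Subtype.range_coe, hbs])
  have hfin : Fintype b := FiniteDimensional.fintypeBasisIndex B
  have hcard : Fintype.card b = n := by
    rw [← Module.finrank_eq_card_basis B]
    simp
  let e : Fin n ≃ b := (Fintype.equivFinOfCardEq hcard).symm
  choose μ hμ using fun x : b => hbt x.2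
  refine ⟨fun i => (e i : Fin n → ℂ), fun i => μ (e i), ?_, fun i => hμ (e i)⟩
  exact hbl.comp e e.injective

theorem exists_diag {n m : ℕ} (hm : 0 < m) (A : Matrix (Fin n) (Fin n) ℂ) (hA : A ^ m = 1) :
    ∃ (P Q : Matrix (Fin n) (Fin n) ℂ) (l : Fin n → ℂ), P * Q = 1 ∧ Q * P = 1 ∧
      ∀ i j, (P * A) i j = l i * P i j := by
  let f : Module.End ℂ (Fin n → ℂ) := Matrix.toLin' Aᵀ
  have hf : Polynomial.aeval f (Polynomial.X ^ m - 1 : Polynomial ℂ) = 0 := by
    rw [map_sub, map_pow, Polynomial.aeval_X, map_one]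
    have h1 : f ^ m = 1 := by
      have : f ^ m = Matrix.toLin' (Aᵀ ^ m) := by
        rw [Matrix.toLin'_pow]
      rw [this, ← Matrix.transpose_pow, hA, Matrix.transpose_one, Matrix.toLin'_one]
      rfl
    rw [h1, sub_self]
  have hss : f.IsSemisimple := by
    apply Module.End.isSemisimple_of_squarefree_aeval_eq_zero _ hf
    apply Polynomial.Separable.squarefree
    have := Polynomial.separable_X_pow_sub_C (F := ℂ) (n := m) 1 (by exact_mod_cast hm.ne') one_ne_zero
    simpa using this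
  obtain ⟨b, l, hb, hl⟩ := exists_eigenbasis f hss.iSup_eigenspace_eq_top
  let P : Matrix (Fin n) (Fin n) ℂ := Matrix.of b
  have hP : IsUnit P := by
    rw [← Matrix.linearIndependent_rows_iff_isUnit]
    exact hb
  obtain ⟨u, hu⟩ := hP
  refine ⟨P, (↑u⁻¹ : Matrix (Fin n) (Fin n) ℂ), l, ?_, ?_, ?_⟩
  · rw [← hu]
    exact u.mul_inv
  · rw [← hu]
    exact u.inv_mul
  · intro i j
    have h1 := congrFun (hl i) j
    rw [Matrix.mul_apply]
    change (Matrix.toLin' Aᵀ (b i)) j = l i * b i j at h1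
    change _ = l i * b i j
    rw [← h1, Matrix.toLin'_apply, Matrix.mulVec, dotProduct]
    refine Finset.sum_congr rfl fun k _ => ?_
    rw [Matrix.transpose_apply, mul_comm]
    rfl

end Pool.Agent.R795.Deg
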