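import Mathlib

/-! Traces of semilinear endomorphisms on quotients of a ring and the exchange of one element of
a system of parameters. -/

set_option autoImplicit false

open scoped Pointwise

namespace Pool.Agent.R795.Deg

section trace

variable {K V : Type*} [Field K] [AddCommGroup V] [Module K V] [FiniteDimensional K V]

theorem trace_eq_add (W : Submodule K V) (e : V →ₗ[K] V) (he : W ≤ W.comap e) :
    LinearMap.trace K V e = LinearMap.trace K W (e.restrict he)
      + LinearMap.trace K (V ⧸ W) (W.mapQ W e he) := by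
  classical
  let m := Module.Free.ChooseBasisIndex K W
  let bW : Module.Basis m K W := Module.Free.chooseBasis K W
  let n := Module.Free.ChooseBasisIndex K (V ⧸ W)
  let bQ : Module.Basis n K (V ⧸ W) := Module.Free.chooseBasis K (V ⧸ W)
  let b := Module.Basis.sumQuot bW bQ
  rw [LinearMap.trace_eq_matrix_trace K b, LinearMap.trace_eq_matrix_trace K bW,
    LinearMap.trace_eq_matrix_trace K bQ]
  rw [Matrix.trace, Fintype.sum_sum_type]
  congr 1
  · refine Finset.sum_congr rfl fun i _ => ?_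
    simp only [Matrix.diag_apply, b, LinearMap.toMatrix_apply, Module.Basis.sumQuot_inl]
    apply Module.Basis.sumQuot_repr_inl_of_mem
  · refine Finset.sum_congr rfl fun i _ => ?_
    simp only [Matrix.diag_apply, LinearMap.toMatrix_apply, Module.Basis.sumQuot_repr_inr, b]
    rw [← Module.Basis.sumQuot_inr bW bQ i, W.mapQ_apply]
    simp

end trace

/-- traces are additive on short exact sequences -/
theorem trace_exact {K A B C : Type*} [Field K] [AddCommGroup A] [Module K A] [AddCommGroup B]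
    [Module K B] [AddCommGroup C] [Module K C] [FiniteDimensional K B]
    (i : A →ₗ[K] B) (p : B →ₗ[K] C) (hi : Function.Injective i) (hp : Function.Surjective p)
    (hip : LinearMap.range i = LinearMap.ker p) (a : A →ₗ[K] A) (b : B →ₗ[K] B) (c : C →ₗ[K] C)
    (h1 : ∀ x, b (i x) = i (a x)) (h2 : ∀ x, c (p x) = p (b x)) :
    LinearMap.trace K B b = LinearMap.trace K A a + LinearMap.trace K C c := by
  have he : LinearMap.range i ≤ (LinearMap.range i).comap b := by
    rintro _ ⟨x, rfl⟩
    rw [Submodule.mem_comap, h1]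
    exact ⟨_, rfl⟩
  rw [trace_eq_add (LinearMap.range i) b he]
  congr 1
  · let e : A ≃ₗ[K] LinearMap.range i := LinearEquiv.ofInjective i hi
    rw [← LinearMap.trace_conj' a e]
    congr 1
    apply LinearMap.ext
    intro x
    obtain ⟨y, rfl⟩ := e.surjective x
    apply Subtype.ext
    rw [LinearEquiv.conj_apply_apply, LinearEquiv.symm_apply_apply]
    change b (i y) = i (a y)
    exact h1 y
  · let e : (B ⧸ LinearMap.range i) ≃ₗ[K] C :=
      (Submodule.quotEquivOfEq _ _ hip).trans (p.quotKerEquivOfSurjective hp)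
    rw [← LinearMap.trace_conj' ((LinearMap.range i).mapQ _ b he) e]
    congr 1
    apply LinearMap.ext
    intro x
    obtain ⟨y, rfl⟩ := e.surjective x
    rw [LinearEquiv.conj_apply_apply, LinearEquiv.symm_apply_apply]
    obtain ⟨z, rfl⟩ := Submodule.Quotient.mk_surjective _ y
    change p (b z) = c (p z)
    rw [h2]

section ring

variable {K R : Type} [Field K] [CommRing R] [Algebra K R] (σ : R →ₐ[K] R)

/-- the endomorphism induced by `σ` on the quotient by a stable ideal -/
noncomputable def indMap (J : Ideal R) (h : J ≤ J.comap σ) : (R ⧸ J) →ₗ[K] (R ⧸ J) :=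
  (Ideal.quotientMapₐ J σ h).toLinearMap

theorem indMap_mk (J : Ideal R) (h : J ≤ J.comap σ) (x : R) :
    indMap σ J h (Ideal.Quotient.mk J x) = Ideal.Quotient.mk J (σ x) := rfl

/-- the trace of `σ` on the quotient by a stable ideal (zero if the ideal is not stable) -/
noncomputable def tr (J : Ideal R) : K :=
  open scoped Classical in if h : J ≤ J.comap σ then LinearMap.trace K (R ⧸ J) (indMap σ J h) else 0

theorem tr_eq (J : Ideal R) (h : J ≤ J.comap σ) :
    tr σ J = LinearMap.trace K (R ⧸ J) (indMap σ J h) := by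
  unfold tr
  rw [dif_pos h]

theorem stable_sup_span {I : Ideal R} (hI : I ≤ I.comap σ) {x : R} {l : K} (hx : σ x = l • x) :
    I ⊔ Ideal.span {x} ≤ (I ⊔ Ideal.span {x}).comap σ := by
  refine sup_le (hI.trans (Ideal.comap_mono le_sup_left)) ?_
  rw [Ideal.span_singleton_le_iff_mem, Ideal.mem_comap, hx, Algebra.smul_def]
  exact Ideal.mul_mem_left _ _ (Ideal.mem_sup_right (Ideal.mem_span_singleton_self x))

theorem mem_sup_span {I : Ideal R} {x z : R} :
    z ∈ I ⊔ Ideal.span {x} ↔ ∃ c, z - c * x ∈ I := by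
  rw [sup_comm, Ideal.mem_span_singleton_sup]
  constructor
  · rintro ⟨a, b, hb, rfl⟩
    exact ⟨a, by simpa using hb⟩
  · rintro ⟨c, hc⟩
    exact ⟨c, _, hc, by ring⟩

/-- multiplication by `y` from `R ⧸ (I + (x))` to `R ⧸ (I + (x y))` -/
noncomputable def mulMap (I : Ideal R) (x y : R) :
    (R ⧸ (I ⊔ Ideal.span {x})) →ₗ[K] (R ⧸ (I ⊔ Ideal.span {x * y})) :=
  (Submodule.mapQ (I ⊔ Ideal.span {x}) (I ⊔ Ideal.span {x * y}) (LinearMap.lsmul R R y) (by
    intro r hr
    rw [mem_sup_span] at hr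
    obtain ⟨c, hc⟩ := hr
    rw [Submodule.mem_comap, LinearMap.lsmul_apply, smul_eq_mul]
    refine mem_sup_span.2 ⟨c, ?_⟩
    have : y * r - c * (x * y) = y * (r - c * x) := by ring
    rw [this]
    exact Ideal.mul_mem_left _ _ hc)).restrictScalars K

theorem mulMap_mk (I : Ideal R) (x y r : R) :
    mulMap (K := K) I x y (Ideal.Quotient.mk _ r) = Ideal.Quotient.mk _ (y * r) := rfl

theorem mulMap_injective (I : Ideal R) (x y : R) (hyr : ∀ r, y * r ∈ I → r ∈ I) :
    Function.Injective (mulMap (K := K) I x y) := by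
  rw [injective_iff_map_eq_zero]
  intro a ha
  obtain ⟨r, rfl⟩ := Ideal.Quotient.mk_surjective a
  rw [mulMap_mk, Ideal.Quotient.eq_zero_iff_mem, mem_sup_span] at ha
  obtain ⟨c, hc⟩ := ha
  rw [Ideal.Quotient.eq_zero_iff_mem, mem_sup_span]
  refine ⟨c, hyr _ ?_⟩
  have : y * (r - c * x) = y * r - c * (x * y) := by ring
  rwa [this]

/-- the canonical projection -/
noncomputable def projMap (I : Ideal R) (x y : R) :
    (R ⧸ (I ⊔ Ideal.span {x * y})) →ₗ[K] (R ⧸ (I ⊔ Ideal.span {y})) :=
  (Ideal.Quotient.factorₐ K (by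
    refine sup_le le_sup_left ?_
    rw [Ideal.span_singleton_le_iff_mem]
    exact Ideal.mem_sup_right (Ideal.mul_mem_left _ _ (Ideal.mem_span_singleton_self y)) :
    (I ⊔ Ideal.span {x * y}) ≤ (I ⊔ Ideal.span {y}))).toLinearMap

theorem projMap_mk (I : Ideal R) (x y r : R) :
    projMap (K := K) I x y (Ideal.Quotient.mk _ r) = Ideal.Quotient.mk _ r := rfl

theorem projMap_surjective (I : Ideal R) (x y : R) :
    Function.Surjective (projMap (K := K) I x y) := by
  intro a
  obtain ⟨r, rfl⟩ := Ideal.Quotient.mk_surjective a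
  exact ⟨Ideal.Quotient.mk _ r, projMap_mk I x y r⟩

theorem range_mulMap (I : Ideal R) (x y : R) :
    LinearMap.range (mulMap (K := K) I x y) = LinearMap.ker (projMap (K := K) I x y) := by
  ext a
  obtain ⟨r, rfl⟩ := Ideal.Quotient.mk_surjective a
  rw [LinearMap.mem_ker, projMap_mk, Ideal.Quotient.eq_zero_iff_mem, mem_sup_span]
  constructor
  · rintro ⟨b, hb⟩
    obtain ⟨t, rfl⟩ := Ideal.Quotient.mk_surjective b
    rw [mulMap_mk, Ideal.Quotient.eq, mem_sup_span] at hb
    obtain ⟨c, hc⟩ := hb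
    refine ⟨t - c * x, ?_⟩
    have : r - (t - c * x) * y = -(y * t - r - c * (x * y)) := by ring
    rw [this]
    exact I.neg_mem hc
  · rintro ⟨c, hc⟩
    refine ⟨Ideal.Quotient.mk _ c, ?_⟩
    rw [mulMap_mk, Ideal.Quotient.eq, mem_sup_span]
    refine ⟨0, ?_⟩
    have : y * c - r - 0 * (x * y) = -(r - c * y) := by ring
    rw [this]
    exact I.neg_mem hc

theorem finite_mul {I : Ideal R} {x y : R}
    (hfx : Module.Finite K (R ⧸ (I ⊔ Ideal.span {x})))
    (hfy : Module.Finite K (R ⧸ (I ⊔ Ideal.span {y}))) :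
    Module.Finite K (R ⧸ (I ⊔ Ideal.span {x * y})) := by
  let N := LinearMap.range (mulMap (K := K) I x y)
  have h1 : Module.Finite K N := Module.Finite.range _
  have h2 : Module.Finite K ((R ⧸ (I ⊔ Ideal.span {x * y})) ⧸ N) := by
    let e : ((R ⧸ (I ⊔ Ideal.span {x * y})) ⧸ N) ≃ₗ[K] (R ⧸ (I ⊔ Ideal.span {y})) :=
      (Submodule.quotEquivOfEq _ _ (range_mulMap I x y)).trans
        ((projMap (K := K) I x y).quotKerEquivOfSurjective (projMap_surjective I x y))
    exact Module.Finite.equiv e.symm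
  exact Module.Finite.of_submodule_quotient N

theorem exact_step {I : Ideal R} (hI : I ≤ I.comap σ) {x y : R} {l m : K} (hx : σ x = l • x)
    (hy : σ y = m • y) (hyr : ∀ r, y * r ∈ I → r ∈ I)
    (hfx : Module.Finite K (R ⧸ (I ⊔ Ideal.span {x})))
    (hfy : Module.Finite K (R ⧸ (I ⊔ Ideal.span {y}))) :
    tr σ (I ⊔ Ideal.span {x * y}) = m * tr σ (I ⊔ Ideal.span {x}) + tr σ (I ⊔ Ideal.span {y}) := by
  have hxy : σ (x * y) = (l * m) • (x * y) := by
    rw [map_mul, hx, hy, smul_mul_smul_comm]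
  rw [tr_eq σ _ (stable_sup_span σ hI hx), tr_eq σ _ (stable_sup_span σ hI hy),
    tr_eq σ _ (stable_sup_span σ hI hxy)]
  have := finite_mul hfx hfy
  rw [trace_exact (mulMap (K := K) I x y) (projMap (K := K) I x y) (mulMap_injective I x y hyr)
    (projMap_surjective I x y) (range_mulMap I x y)
    (m • indMap σ (I ⊔ Ideal.span {x}) (stable_sup_span σ hI hx)) _
    (indMap σ (I ⊔ Ideal.span {y}) (stable_sup_span σ hI hy))]
  · rw [map_smul, smul_eq_mul]
  · intro a
    obtain ⟨r, rfl⟩ := Ideal.Quotient.mk_surjective a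
    rw [mulMap_mk, indMap_mk, LinearMap.smul_apply, indMap_mk, map_smul, mulMap_mk, map_mul, hy,
      smul_mul_assoc]
    rfl
  · intro a
    obtain ⟨r, rfl⟩ := Ideal.Quotient.mk_surjective a
    rw [projMap_mk, indMap_mk, indMap_mk, projMap_mk]

/-- the exchange of one element -/
theorem tr_exchange {I : Ideal R} (hI : I ≤ I.comap σ) {x y : R} {l : K} (hl : l ≠ 1)
    (hx : σ x = l • x) (hy : σ y = l • y) (hxr : ∀ r, x * r ∈ I → r ∈ I)
    (hyr : ∀ r, y * r ∈ I → r ∈ I)
    (hfx : Module.Finite K (R ⧸ (I ⊔ Ideal.span {x})))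
    (hfy : Module.Finite K (R ⧸ (I ⊔ Ideal.span {y}))) :
    tr σ (I ⊔ Ideal.span {x}) = tr σ (I ⊔ Ideal.span {y}) := by
  have h1 := exact_step σ hI hx hy hyr hfx hfy
  have h2 := exact_step σ hI hy hx hxr hfy hfx
  rw [mul_comm y x, h1] at h2
  have h3 : (l - 1) * (tr σ (I ⊔ Ideal.span {x}) - tr σ (I ⊔ Ideal.span {y})) = 0 := by
    linear_combination h2
  rcases mul_eq_zero.1 h3 with h | h
  · exact absurd (sub_eq_zero.1 h) hl
  · exact sub_eq_zero.1 h

end ring

end Pool.Agent.R795.Deg
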