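import Mathlib
import Pool.Agent.R795.Deg.CM
import Pool.Agent.R795.Deg.Tr

/-! Systems of parameters and the comparison of traces. -/

set_option autoImplicit false

open scoped Pointwise
open RingTheory.Sequence

namespace Pool.Agent.R795.Deg

/-- a module of finite length over a local algebra with finite residue field extension is
finite-dimensional -/
theorem finite_of_isFiniteLength {K R : Type} [Field K] [CommRing R] [IsLocalRing R] [Algebra K R]
    [Module.Finite K (R ⧸ IsLocalRing.maximalIdeal R)]
    (M : Type) [AddCommGroup M] [Module R M] (h : IsFiniteLength R M)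
    [Module K M] [IsScalarTower K R M] : Module.Finite K M := by
  revert ‹Module K M›
  induction h with
  | of_subsingleton =>
    intro _ _
    infer_instance
  | @of_simple_quotient M _ _ N hs hN ih =>
    intro _ _
    have h1 : Module.Finite K N := ih
    obtain ⟨m, hm, ⟨e⟩⟩ := isSimpleModule_iff_quot_maximal.1 hs
    have hm' : m = IsLocalRing.maximalIdeal R := IsLocalRing.eq_maximalIdeal hm
    subst hm'
    have h2 : Module.Finite K (M ⧸ N) := Module.Finite.equiv (e.symm.restrictScalars K)
    have h3 : Module.Finite K (N.restrictScalars K) := h1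
    have h4 : Module.Finite K (M ⧸ (N.restrictScalars K)) := h2
    exact Module.Finite.of_submodule_quotient (N.restrictScalars K)

section

variable {K R : Type} [Field K] [CommRing R] [IsLocalRing R] [IsNoetherianRing R] [Algebra K R]

omit [IsLocalRing R] [IsNoetherianRing R] in
theorem supportDim_le_zero_of_finite (J : Ideal R) (h : Module.Finite K (R ⧸ J)) :
    Module.supportDim R (R ⧸ J) ≤ 0 := by
  rw [Module.supportDim_quotient_eq_ringKrullDim]
  have h1 : IsArtinian K (R ⧸ J) := inferInstance
  have h2 : IsArtinianRing (R ⧸ J) := isArtinian_of_tower K h1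
  have h3 : Ring.KrullDimLE 0 (R ⧸ J) := inferInstance
  exact Ring.krullDimLE_iff.1 h3

theorem finite_of_supportDim_le_zero [Module.Finite K (R ⧸ IsLocalRing.maximalIdeal R)]
    (J : Ideal R) (h : Module.supportDim R (R ⧸ J) ≤ 0) : Module.Finite K (R ⧸ J) := by
  rw [Module.supportDim_quotient_eq_ringKrullDim] at h
  have h1 : Ring.KrullDimLE 0 (R ⧸ J) := Ring.krullDimLE_iff.2 h
  have h2 : IsArtinianRing (R ⧸ J) := IsNoetherianRing.isArtinianRing_of_krullDimLE_zero
  have h3 : IsArtinian R (R ⧸ J) := by
    have : IsArtinian (R ⧸ J) (R ⧸ J) := h2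
    exact isArtinian_of_surjective_algebraMap (R := R ⧸ J) (S := R) Ideal.Quotient.mk_surjective
  exact finite_of_isFiniteLength (K := K) (R ⧸ J) (isFiniteLength_iff_isNoetherian_isArtinian.2 ⟨inferInstance, h3⟩)

/-- dimension drop -/
theorem supportDim_sup (I : Ideal R) (z : R) (hz : z ∈ IsLocalRing.maximalIdeal R)
    (hr : ∀ r, z * r ∈ I → r ∈ I) :
    Module.supportDim R (R ⧸ (I ⊔ Ideal.span {z})) + 1 = Module.supportDim R (R ⧸ I) := by
  have hreg : IsSMulRegular (R ⧸ I) z := by
    rw [isSMulRegular_quotient_iff_mem_of_smul_mem]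
    exact hr
  rw [← Module.supportDim_quotSMulTop_succ_eq_supportDim hreg hz]
  congr 1
  have : Module.support R (R ⧸ (I ⊔ Ideal.span {z})) = Module.support R (QuotSMulTop z (R ⧸ I)) := by
    rw [Module.support_quotSMulTop, Module.support_eq_zeroLocus, Module.support_eq_zeroLocus,
      Ideal.annihilator_quotient, Ideal.annihilator_quotient]
    ext p
    simp only [PrimeSpectrum.mem_zeroLocus, Set.mem_inter_iff, SetLike.coe_subset_coe,
      sup_le_iff, Ideal.span_le]
  unfold Module.supportDim
  rw [this]

variable (K) in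
/-- a system of parameters -/
def IsSop {n : ℕ} (a : Fin n → R) : Prop :=
  (∀ i, a i ∈ IsLocalRing.maximalIdeal R) ∧ Module.Finite K (R ⧸ Ideal.span (Set.range a))

/-- the ideal of all elements but one -/
def others {n : ℕ} (a : Fin n → R) (i : Fin n) : Ideal R := Ideal.span (a '' {j | j ≠ i})

omit [IsLocalRing R] [IsNoetherianRing R] [Algebra K R] in
theorem span_range_eq {n : ℕ} (a : Fin n → R) (i : Fin n) :
    Ideal.span (Set.range a) = others a i ⊔ Ideal.span {a i} := by
  unfold others
  rw [← Ideal.span_union]
  congr 1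
  ext x
  constructor
  · rintro ⟨j, rfl⟩
    by_cases h : j = i
    · subst h
      right
      rfl
    · left
      exact ⟨j, h, rfl⟩
  · rintro (⟨j, _, rfl⟩ | h)
    · exact ⟨j, rfl⟩
    · exact ⟨i, h.symm⟩

omit [IsLocalRing R] [IsNoetherianRing R] [Algebra K R] in
theorem others_update {n : ℕ} (a : Fin n → R) (i : Fin n) (z : R) :
    others (Function.update a i z) i = others a i := by
  unfold others
  congr 1
  apply Set.image_congr
  intro j hj
  rw [Function.update_of_ne hj]

theorem regular_of_isSop {n : ℕ} (xs : List R) (hxl : xs.length = n)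
    (hxm : ∀ r ∈ xs, r ∈ IsLocalRing.maximalIdeal R) (hxr : IsRegular R xs)
    {a : Fin n → R} (ha : IsSop K a) (i : Fin n) (r : R) (hr : a i * r ∈ others a i) :
    r ∈ others a i := by
  classical
  let L : List R := ((List.finRange n).erase i).map a
  have hLmem : ∀ x, x ∈ L ↔ ∃ j, j ≠ i ∧ a j = x := by
    intro x
    simp only [L, List.mem_map]
    constructor
    · rintro ⟨j, hj, rfl⟩
      rw [(List.nodup_finRange n).mem_erase_iff] at hj
      exact ⟨j, hj.1, rfl⟩
    · rintro ⟨j, hj, rfl⟩
      exact ⟨j, (List.nodup_finRange n).mem_erase_iff.2 ⟨hj, List.mem_finRange j⟩, rfl⟩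
  have hL : Ideal.ofList L = others a i := by
    unfold Ideal.ofList others
    congr 1
    ext x
    rw [Set.mem_ofPred_eq, hLmem]
    rfl
  have hlen : (L ++ [a i]).length = n := by
    simp only [L, List.length_append, List.length_map, List.length_singleton,
      List.length_erase_of_mem (List.mem_finRange i), List.length_finRange]
    have := i.pos
    omega
  have hofl : Ideal.ofList (L ++ [a i]) = Ideal.span (Set.range a) := by
    rw [Ideal.ofList_append, hL, Ideal.ofList_singleton, span_range_eq a i]
  have hreg := isRegular_of_supportDim_le (R := R) n R xs hxl hxm hxr (L ++ [a i]) hlen (by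
    intro x hx
    rw [List.mem_append] at hx
    rcases hx with hx | hx
    · obtain ⟨j, -, rfl⟩ := (hLmem x).1 hx
      exact ha.1 j
    · rw [List.mem_singleton.1 hx]
      exact ha.1 i) (by
    rw [hofl]
    have : (Ideal.span (Set.range a) • (⊤ : Submodule R R)) = Ideal.span (Set.range a) := by simp
    rw [this]
    exact supportDim_le_zero_of_finite (K := K) _ ha.2)
  have h1 := (isWeaklyRegular_append_iff R L [a i]).1 hreg.toIsWeaklyRegular
  have h2 := (isWeaklyRegular_singleton_iff _ _).1 h1.2
  rw [isSMulRegular_quotient_iff_mem_of_smul_mem] at h2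
  have h3 := h2 r
  rw [hL] at h3
  simpa using h3 (by simpa using hr)

theorem isSop_update [Module.Finite K (R ⧸ IsLocalRing.maximalIdeal R)] {n : ℕ} (xs : List R)
    (hxl : xs.length = n)
    (hxm : ∀ r ∈ xs, r ∈ IsLocalRing.maximalIdeal R) (hxr : IsRegular R xs)
    {a : Fin n → R} (ha : IsSop K a) (i : Fin n) (z : R)
    (hz : z ∈ IsLocalRing.maximalIdeal R) (hzr : ∀ r, z * r ∈ others a i → r ∈ others a i) :
    IsSop K (Function.update a i z) := by
  refine ⟨?_, ?_⟩
  · intro j
    by_cases h : j = i
    · subst h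
      rw [Function.update_self]
      exact hz
    · rw [Function.update_of_ne h]
      exact ha.1 j
  · apply finite_of_supportDim_le_zero
    rw [span_range_eq _ i, others_update, Function.update_self]
    have h1 := supportDim_sup (others a i) z hz hzr
    have h2 := supportDim_sup (others a i) (a i) (ha.1 i)
      (fun r hr => regular_of_isSop xs hxl hxm hxr ha i r hr)
    have h3 := supportDim_le_zero_of_finite (K := K) _ ha.2
    rw [span_range_eq _ i] at h3
    rw [← h2] at h1
    rw [ENat.WithBot.add_one_cancel.1 h1]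
    exact h3

/-- a generic element of a pencil avoids the zero divisors -/
theorem exists_regular [Infinite K] (I J : Ideal R) (x y : R) (hx : ∀ r, x * r ∈ I → r ∈ I)
    (hy : ∀ r, y * r ∈ J → r ∈ J) :
    ∃ c : K, (∀ r, (x + c • y) * r ∈ I → r ∈ I) ∧ (∀ r, (x + c • y) * r ∈ J → r ∈ J) := by
  classical
  have hfin1 : (associatedPrimes R (R ⧸ I)).Finite := associatedPrimes.finite R (R ⧸ I)
  have hfin2 : (associatedPrimes R (R ⧸ J)).Finite := associatedPrimes.finite R (R ⧸ J)
  have hreg : ∀ (I : Ideal R) (z : R), (∀ r, z * r ∈ I → r ∈ I) ↔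
      ∀ p ∈ associatedPrimes R (R ⧸ I), z ∉ p := by
    intro I z
    have h1 : (∀ r, z * r ∈ I → r ∈ I) ↔ IsSMulRegular (R ⧸ I) z := by
      rw [isSMulRegular_quotient_iff_mem_of_smul_mem]
      rfl
    rw [h1]
    have h2 : z ∈ ⋃ p ∈ associatedPrimes R (R ⧸ I), (p : Set R) ↔ ¬ IsSMulRegular (R ⧸ I) z := by
      rw [biUnion_associatedPrimes_eq_compl_regular]
      rfl
    constructor
    · intro h p hp hz
      exact h2.1 (Set.mem_iUnion₂.2 ⟨p, hp, hz⟩) h
    · intro h
      by_contra hcon
      obtain ⟨p, hp, hz⟩ := Set.mem_iUnion₂.1 (h2.2 hcon)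
      exact h p hp hz
  -- bad constants
  have hbad : ∀ p : Ideal R, p.IsPrime → (x ∉ p ∨ y ∉ p) →
      {c : K | x + c • y ∈ p}.Subsingleton := by
    intro p hp hxy c hc d hd
    by_contra hcd
    have hc' : x + c • y ∈ p := hc
    have hd' : x + d • y ∈ p := hd
    have h1 : (c - d) • y ∈ p := by
      have : (c - d) • y = (x + c • y) - (x + d • y) := by
        rw [sub_smul]
        ring
      rw [this]
      exact p.sub_mem hc' hd'
    have h2 : y ∈ p := by
      have h3 : (c - d)⁻¹ • ((c - d) • y) ∈ p := by
        rw [Algebra.smul_def]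
        exact Ideal.mul_mem_left _ _ h1
      rwa [inv_smul_smul₀ (sub_ne_zero.2 hcd)] at h3
    have h4 : x ∈ p := by
      have : x = (x + c • y) - c • y := by ring
      rw [this]
      refine p.sub_mem hc' ?_
      rw [Algebra.smul_def]
      exact Ideal.mul_mem_left _ _ h2
    rcases hxy with h | h
    · exact h h4
    · exact h h2
  have hfin : (⋃ p ∈ associatedPrimes R (R ⧸ I) ∪ associatedPrimes R (R ⧸ J),
      {c : K | x + c • y ∈ p}).Finite := by
    refine Set.Finite.biUnion (hfin1.union hfin2) ?_
    intro p hp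
    have hpp : p.IsPrime := by
      rcases hp with hp | hp
      · exact hp.1
      · exact hp.1
    refine (hbad p hpp ?_).finite
    rcases hp with hp | hp
    · exact Or.inl ((hreg I x).1 hx p hp)
    · exact Or.inr ((hreg J y).1 hy p hp)
  obtain ⟨c, hc⟩ := hfin.exists_notMem
  refine ⟨c, (hreg I _).2 ?_, (hreg J _).2 ?_⟩
  · intro p hp h
    exact hc (Set.mem_iUnion₂.2 ⟨p, Or.inl hp, h⟩)
  · intro p hp h
    exact hc (Set.mem_iUnion₂.2 ⟨p, Or.inr hp, h⟩)

theorem others_stable (σ : R →ₐ[K] R) {n : ℕ} {a : Fin n → R} {l : Fin n → K}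
    (ha : ∀ i, σ (a i) = l i • a i) (i : Fin n) : others a i ≤ (others a i).comap σ := by
  unfold others
  rw [Ideal.span_le]
  rintro _ ⟨j, hj, rfl⟩
  rw [SetLike.mem_coe, Ideal.mem_comap, ha, Algebra.smul_def]
  exact Ideal.mul_mem_left _ _ (Ideal.subset_span ⟨j, hj, rfl⟩)

/-- one step: change the `i`-th element -/
theorem tr_update [Module.Finite K (R ⧸ IsLocalRing.maximalIdeal R)] (σ : R →ₐ[K] R) {n : ℕ}
    (xs : List R) (hxl : xs.length = n)
    (hxm : ∀ r ∈ xs, r ∈ IsLocalRing.maximalIdeal R) (hxr : IsRegular R xs)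
    {a : Fin n → R} (ha : IsSop K a) {l : Fin n → K} (hla : ∀ i, σ (a i) = l i • a i)
    (i : Fin n) (hi : l i ≠ 1) (z : R)
    (hz : z ∈ IsLocalRing.maximalIdeal R) (hzr : ∀ r, z * r ∈ others a i → r ∈ others a i)
    (hlz : σ z = l i • z) :
    tr σ (Ideal.span (Set.range a)) = tr σ (Ideal.span (Set.range (Function.update a i z))) := by
  have h1 := isSop_update (K := K) xs hxl hxm hxr ha i z hz hzr
  have h2 := h1.2
  have h3 := ha.2
  rw [span_range_eq _ i] at h3
  rw [span_range_eq _ i, others_update, Function.update_self] at h2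
  rw [span_range_eq a i, span_range_eq (Function.update a i z) i, others_update,
    Function.update_self]
  exact tr_exchange σ (others_stable σ hla i) hi (hla i) hlz
    (fun r hr => regular_of_isSop xs hxl hxm hxr ha i r hr) hzr h3 h2

/-- comparison of two systems of parameters with the same weights -/
theorem tr_eq_of_weights [Infinite K] [Module.Finite K (R ⧸ IsLocalRing.maximalIdeal R)]
    (σ : R →ₐ[K] R) {n : ℕ}
    (xs : List R) (hxl : xs.length = n)
    (hxm : ∀ r ∈ xs, r ∈ IsLocalRing.maximalIdeal R) (hxr : IsRegular R xs) (l : Fin n → K)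
    (D : Finset (Fin n)) : ∀ a b : Fin n → R, IsSop K a → IsSop K b →
      (∀ i, σ (a i) = l i • a i) → (∀ i, σ (b i) = l i • b i) → (∀ i ∉ D, a i = b i) →
      (∀ i ∈ D, l i ≠ 1) →
      tr σ (Ideal.span (Set.range a)) = tr σ (Ideal.span (Set.range b)) := by
  classical
  induction D using Finset.induction_on with
  | empty =>
    intro a b _ _ _ _ hab _
    have : a = b := funext fun i => hab i (by simp)
    rw [this]
  | insert i D hi ih =>
    intro a b ha hb hla hlb hab hD
    obtain ⟨c, hc1, hc2⟩ := exists_regular (K := K) (others a i) (others b i) (a i) (b i)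
      (fun r hr => regular_of_isSop xs hxl hxm hxr ha i r hr)
      (fun r hr => regular_of_isSop xs hxl hxm hxr hb i r hr)
    set z := a i + c • b i with hzdef
    have hz : z ∈ IsLocalRing.maximalIdeal R := by
      refine Ideal.add_mem _ (ha.1 i) ?_
      rw [Algebra.smul_def]
      exact Ideal.mul_mem_left _ _ (hb.1 i)
    have hlz : σ z = l i • z := by
      rw [hzdef, map_add, map_smul, hla, hlb, smul_add, smul_comm]
    have hli : l i ≠ 1 := hD i (Finset.mem_insert_self i D)
    rw [tr_update σ xs hxl hxm hxr ha hla i hli z hz hc1 hlz,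
      tr_update σ xs hxl hxm hxr hb hlb i hli z hz hc2 hlz]
    apply ih
    · exact isSop_update (K := K) xs hxl hxm hxr ha i z hz hc1
    · exact isSop_update (K := K) xs hxl hxm hxr hb i z hz hc2
    · intro j
      by_cases hj : j = i
      · subst hj
        rw [Function.update_self]
        exact hlz
      · rw [Function.update_of_ne hj]
        exact hla j
    · intro j
      by_cases hj : j = i
      · subst hj
        rw [Function.update_self]
        exact hlz
      · rw [Function.update_of_ne hj]
        exact hlb j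
    · intro j hj
      by_cases hji : j = i
      · subst hji
        rw [Function.update_self, Function.update_self]
      · rw [Function.update_of_ne hji, Function.update_of_ne hji]
        exact hab j (by simp [hji, hj])
    · intro j hj
      exact hD j (Finset.mem_insert_of_mem hj)

end

end Pool.Agent.R795.Deg
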