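import Mathlib

/-! The variables form a regular sequence in a power series ring. -/

set_option autoImplicit false

open scoped Pointwise
open RingTheory.Sequence

namespace Pool.Agent.R795.Deg

open MvPowerSeries

variable {K : Type} [CommRing K] {n : ℕ}

/-- membership in an ideal generated by variables -/
theorem mem_span_X (S : Finset (Fin n)) (h : MvPowerSeries (Fin n) K) :
    h ∈ Ideal.span ((fun j => (X j : MvPowerSeries (Fin n) K)) '' (S : Set (Fin n))) ↔
      ∀ d : Fin n →₀ ℕ, (∀ j ∈ S, d j = 0) → coeff d h = 0 := by
  classical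
  constructor
  · intro hh
    induction hh using Submodule.span_induction with
    | mem x hx =>
      obtain ⟨j, hj, rfl⟩ := hx
      intro d hd
      exact X_dvd_iff.1 dvd_rfl d (hd j hj)
    | zero => intro d _; simp
    | add x y _ _ hx hy => intro d hd; rw [map_add, hx d hd, hy d hd, add_zero]
    | smul a x _ hx =>
      intro d hd
      rw [smul_eq_mul, coeff_mul]
      refine Finset.sum_eq_zero fun p hp => ?_
      rw [Finset.HasAntidiagonal.mem_antidiagonal] at hp
      rw [hx p.2, mul_zero]
      intro j hj
      have h1 := hd j hj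
      rw [← hp, Finsupp.add_apply] at h1
      omega
  · induction S using Finset.induction_on generalizing h with
    | empty =>
      intro hh
      have : h = 0 := by
        ext d
        simpa using hh d (by simp)
      rw [this]
      exact Ideal.zero_mem _
    | insert j S hj ih =>
      intro hh
      let h' : MvPowerSeries (Fin n) K := fun d => if d j = 0 then coeff d h else 0
      have hc : ∀ d, coeff d h' = if d j = 0 then coeff d h else 0 := fun d => rfl
      have h1 : h' ∈ Ideal.span ((fun j => (X j : MvPowerSeries (Fin n) K)) '' (S : Set (Fin n))) := by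
        apply ih
        intro d hd
        rw [hc]
        split_ifs with h0
        · apply hh
          intro i hi
          rcases Finset.mem_insert.1 hi with rfl | hi
          · exact h0
          · exact hd i hi
        · rfl
      have h2 : (X j : MvPowerSeries (Fin n) K) ∣ h - h' := by
        rw [X_dvd_iff]
        intro d hd
        rw [map_sub, hc, if_pos hd, sub_self]
      have h3 : h = h' + (h - h') := by ring
      rw [h3]
      refine Ideal.add_mem _ ?_ ?_
      · exact Ideal.span_mono (Set.image_mono (by simp)) h1
      · obtain ⟨c, hc'⟩ := h2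
        rw [hc', mul_comm]
        exact Ideal.mul_mem_left _ _ (Ideal.subset_span ⟨j, by simp, rfl⟩)

theorem span_X_eq (K : Type) [Field K] (n : ℕ) :
    Ideal.span (Set.range fun j : Fin n => (X j : MvPowerSeries (Fin n) K)) =
      IsLocalRing.maximalIdeal (MvPowerSeries (Fin n) K) := by
  ext h
  rw [IsLocalRing.mem_maximalIdeal, mem_nonunits_iff, isUnit_iff_constantCoeff, isUnit_iff_ne_zero,
    not_not]
  have h1 := mem_span_X (K := K) Finset.univ h
  rw [Finset.coe_univ, Set.image_univ] at h1
  rw [h1]
  constructor
  · intro hh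
    rw [← coeff_zero_eq_constantCoeff_apply]
    exact hh 0 (by simp)
  · intro hh d hd
    have : d = 0 := by
      ext j
      simpa using hd j (Finset.mem_univ j)
    rw [this, coeff_zero_eq_constantCoeff_apply, hh]

theorem isWeaklyRegular_X (K : Type) [Field K] (n : ℕ) :
    IsWeaklyRegular (MvPowerSeries (Fin n) K)
      (List.ofFn fun j : Fin n => (X j : MvPowerSeries (Fin n) K)) := by
  rw [isWeaklyRegular_iff_Fin]
  intro i
  have hi : (i : ℕ) < n := by simpa using i.2
  set I : Ideal (MvPowerSeries (Fin n) K) :=
    Ideal.ofList ((List.ofFn fun j : Fin n => (X j : MvPowerSeries (Fin n) K)).take i) with hI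
  have hIe : I = Ideal.span ((fun j => (X j : MvPowerSeries (Fin n) K)) ''
      ((Finset.univ.filter fun j : Fin n => (j : ℕ) < i : Finset (Fin n)) : Set (Fin n))) := by
    rw [hI, Ideal.ofList]
    congr 1
    ext y
    simp only [List.mem_take_iff_getElem, List.getElem_ofFn, List.length_ofFn, Set.mem_ofPred_eq,
      Finset.coe_filter, Finset.mem_univ, true_and, Set.mem_image]
    constructor
    · rintro ⟨a, ha, rfl⟩
      exact ⟨⟨a, by omega⟩, by simpa using (by omega : a < (i : ℕ)), rfl⟩
    · rintro ⟨j, hj, rfl⟩
      exact ⟨j, by omega, rfl⟩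
  have hget : (List.ofFn fun j : Fin n => (X j : MvPowerSeries (Fin n) K))[i] =
      X (⟨i, hi⟩ : Fin n) := by
    simp
  rw [hget]
  rw [isSMulRegular_quotient_iff_mem_of_smul_mem]
  intro x hx
  have hsm : (I • (⊤ : Submodule (MvPowerSeries (Fin n) K) (MvPowerSeries (Fin n) K))) = I := by
    simp
  rw [hsm] at hx ⊢
  rw [hIe, mem_span_X] at hx ⊢
  intro d hd
  have h1 := hx (d + Finsupp.single ⟨i, hi⟩ 1) (by
    intro j hj
    have hj' : (j : ℕ) < i := by simpa using hj
    rw [Finsupp.add_apply, hd j hj, Finsupp.single_apply, if_neg, zero_add]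
    rintro h
    rw [← h] at hj'
    simp at hj')
  rw [smul_eq_mul, mul_comm] at h1
  have := coeff_add_mul_monomial (R := K) d (Finsupp.single (⟨i, hi⟩ : Fin n) 1) x 1
  rw [X, this, mul_one] at h1
  exact h1

theorem isRegular_X (K : Type) [Field K] (n : ℕ) :
    IsRegular (MvPowerSeries (Fin n) K)
      (List.ofFn fun j : Fin n => (X j : MvPowerSeries (Fin n) K)) := by
  apply RingTheory.Sequence.IsRegular.of_isWeaklyRegular_of_mem_maximalIdeal
  · intro r hr
    rw [List.mem_ofFn] at hr
    obtain ⟨j, rfl⟩ := hr
    rw [← span_X_eq]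
    exact Ideal.subset_span ⟨j, rfl⟩
  · exact isWeaklyRegular_X K n

end Pool.Agent.R795.Deg
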