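import Mathlib
import Pool.Agent.R795.Deg.Sop
import Pool.Agent.R795.Deg.Vars
import Pool.Agent.R795.Deg.Diag

/-! The trace of a linear symmetry on the local algebra. -/

set_option autoImplicit false

namespace Pool.Agent.R795.Deg

open MvPowerSeries

/-- two algebra maps out of a power series ring which agree on the variables and send them to
nilpotent elements agree -/
theorem algHom_eq {n : ℕ} {Q : Type} [CommRing Q] [Algebra ℂ Q]
    (φ ψ : MvPowerSeries (Fin n) ℂ →ₐ[ℂ] Q)
    (h : ∀ i, φ (X i) = ψ (X i)) (hn : ∀ i, IsNilpotent (φ (X i))) : φ = ψ := by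
  set J : Ideal Q := Ideal.span (Set.range fun i => φ (X i)) with hJ
  have hJn : IsNilpotent J := by
    rw [Ideal.FG.isNilpotent_iff_le_nilradical]
    · rw [hJ, Ideal.span_le]
      rintro _ ⟨i, rfl⟩
      exact hn i
    · exact ⟨(Set.finite_range fun i => φ (X i)).toFinset, by simp [hJ]⟩
  have hmap : ∀ y ∈ Ideal.span (Set.range fun j : Fin n => (X j : MvPowerSeries (Fin n) ℂ)),
      φ y ∈ J := by
    intro y hy
    have h1 := Ideal.mem_map_of_mem (φ : MvPowerSeries (Fin n) ℂ →+* Q) hy
    rw [Ideal.map_span, ← Set.range_comp] at h1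
    exact h1
  have key : ∀ N : ℕ, ∀ x, φ x - ψ x ∈ J ^ N := by
    intro N
    induction N with
    | zero => intro x; simp
    | succ N ih =>
      intro x
      have hx : x - C (constantCoeff x) ∈ Ideal.span (Set.range fun j : Fin n => (X j : MvPowerSeries (Fin n) ℂ)) := by
        rw [span_X_eq, IsLocalRing.mem_maximalIdeal, mem_nonunits_iff, isUnit_iff_constantCoeff,
          isUnit_iff_ne_zero, not_not]
        simp
      have hc : φ (C (constantCoeff x)) = ψ (C (constantCoeff x)) := by
        have : (C (constantCoeff x) : MvPowerSeries (Fin n) ℂ) = algebraMap ℂ _ (constantCoeff x) := rfl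
        rw [this, AlgHom.commutes, AlgHom.commutes]
      have h2 : φ x - ψ x = φ (x - C (constantCoeff x)) - ψ (x - C (constantCoeff x)) := by
        rw [map_sub, map_sub, hc]
        ring
      rw [h2]
      generalize x - C (constantCoeff x) = y at hx
      induction hx using Submodule.span_induction with
      | mem y hy =>
        obtain ⟨i, rfl⟩ := hy
        simp only [h, sub_self, Submodule.zero_mem]
      | zero => simp
      | add y z _ _ hy hz =>
        have : φ (y + z) - ψ (y + z) = (φ y - ψ y) + (φ z - ψ z) := by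
          rw [map_add, map_add]
          ring
        rw [this]
        exact Ideal.add_mem _ hy hz
      | smul a y hy' hy =>
        have hyJ : φ y ∈ J := hmap y hy'
        have : φ (a • y) - ψ (a • y) = (φ a - ψ a) * φ y + ψ a * (φ y - ψ y) := by
          rw [smul_eq_mul, map_mul, map_mul]
          ring
        rw [this]
        refine Ideal.add_mem _ ?_ (Ideal.mul_mem_left _ _ hy)
        rw [pow_succ]
        exact Ideal.mul_mem_mul (ih a) hyJ
  obtain ⟨N, hN⟩ := hJn
  ext x
  have := key N x
  rw [hN] at this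
  exact sub_eq_zero.1 (by simpa using this)

theorem isNilpotent_mk {n : ℕ} (J : Ideal (MvPowerSeries (Fin n) ℂ))
    (hJ : Module.Finite ℂ (MvPowerSeries (Fin n) ℂ ⧸ J)) (x : MvPowerSeries (Fin n) ℂ)
    (hx : x ∈ IsLocalRing.maximalIdeal (MvPowerSeries (Fin n) ℂ)) :
    IsNilpotent (Ideal.Quotient.mk J x) := by
  have h1 : IsArtinian ℂ (MvPowerSeries (Fin n) ℂ ⧸ J) := inferInstance
  have h2 : IsArtinianRing (MvPowerSeries (Fin n) ℂ ⧸ J) := isArtinian_of_tower ℂ h1
  have h3 : Ideal.Quotient.mk J x ∈
      Ideal.jacobson (⊥ : Ideal (MvPowerSeries (Fin n) ℂ ⧸ J)) := by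
    rw [Ideal.mem_jacobson_bot]
    intro y
    obtain ⟨y, rfl⟩ := Ideal.Quotient.mk_surjective y
    have h4 : IsUnit (x * y + 1) := by
      by_contra hcon
      have h5 : x * y + 1 ∈ IsLocalRing.maximalIdeal (MvPowerSeries (Fin n) ℂ) := hcon
      have h6 : (1 : MvPowerSeries (Fin n) ℂ) ∈
          IsLocalRing.maximalIdeal (MvPowerSeries (Fin n) ℂ) := by
        have h7 : (1 : MvPowerSeries (Fin n) ℂ) = (x * y + 1) - x * y := by ring
        rw [h7]
        exact Ideal.sub_mem _ h5 (Ideal.mul_mem_right _ _ hx)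
      exact h6 isUnit_one
    have h5 := h4.map (Ideal.Quotient.mk J)
    simpa using h5
  obtain ⟨N, hN⟩ := IsArtinianRing.isNilpotent_jacobson_bot (R := MvPowerSeries (Fin n) ℂ ⧸ J)
  refine ⟨N, ?_⟩
  have := Ideal.pow_mem_pow h3 N
  rw [hN] at this
  simpa using this

theorem X_mem {n : ℕ} (i : Fin n) :
    (X i : MvPowerSeries (Fin n) ℂ) ∈ IsLocalRing.maximalIdeal (MvPowerSeries (Fin n) ℂ) := by
  rw [← span_X_eq]
  exact Ideal.subset_span ⟨i, rfl⟩

instance finite_residue (n : ℕ) : Module.Finite ℂ
    (MvPowerSeries (Fin n) ℂ ⧸ IsLocalRing.maximalIdeal (MvPowerSeries (Fin n) ℂ)) := by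
  refine Module.Finite.of_surjective
    (Algebra.linearMap ℂ (MvPowerSeries (Fin n) ℂ ⧸
      IsLocalRing.maximalIdeal (MvPowerSeries (Fin n) ℂ))) ?_
  intro x
  obtain ⟨x, rfl⟩ := Ideal.Quotient.mk_surjective x
  refine ⟨constantCoeff x, ?_⟩
  rw [Algebra.linearMap_apply]
  change Ideal.Quotient.mk _ (C (constantCoeff x)) = _
  rw [Ideal.Quotient.eq, IsLocalRing.mem_maximalIdeal, mem_nonunits_iff,
    isUnit_iff_constantCoeff, isUnit_iff_ne_zero, not_not]
  simp

theorem smul_mem' {n : ℕ} (J : Ideal (MvPowerSeries (Fin n) ℂ)) (c : ℂ)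
    {x : MvPowerSeries (Fin n) ℂ} (hx : x ∈ J) : c • x ∈ J := by
  rw [Algebra.smul_def]
  exact Ideal.mul_mem_left _ _ hx

/-- the inclusion of polynomials -/
noncomputable def inc (n : ℕ) : MvPolynomial (Fin n) ℂ →ₐ[ℂ] MvPowerSeries (Fin n) ℂ :=
  { MvPolynomial.coeToMvPowerSeries.ringHom with
    commutes' := fun c => by
      change ((MvPolynomial.C c : MvPolynomial (Fin n) ℂ) : MvPowerSeries (Fin n) ℂ) = _
      rw [MvPolynomial.coe_C]
      rfl }

theorem inc_apply {n : ℕ} (p : MvPolynomial (Fin n) ℂ) :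
    inc n p = (p : MvPowerSeries (Fin n) ℂ) := rfl

theorem inc_X {n : ℕ} (i : Fin n) : inc n (MvPolynomial.X i) = X i := by
  rw [inc_apply, MvPolynomial.coe_X]

section lin

variable {n : ℕ} (A : Matrix (Fin n) (Fin n) ℂ)

theorem hasSubst_lin :
    HasSubst (fun j : Fin n => ∑ k : Fin n, A j k • (X k : MvPowerSeries (Fin n) ℂ)) := by
  apply hasSubst_of_constantCoeff_zero
  intro j
  rw [map_sum]
  refine Finset.sum_eq_zero fun k _ => ?_
  rw [constantCoeff_smul, constantCoeff_X, smul_zero]

/-- the substitution of the linear forms given by the rows of `A` -/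
noncomputable def sub : MvPowerSeries (Fin n) ℂ →ₐ[ℂ] MvPowerSeries (Fin n) ℂ :=
  substAlgHom (hasSubst_lin A)

theorem sub_X (i : Fin n) : sub A (X i) = ∑ k : Fin n, A i k • (X k : MvPowerSeries (Fin n) ℂ) := by
  rw [sub, substAlgHom_X]

theorem sub_inc (p : MvPolynomial (Fin n) ℂ) :
    sub A (inc n p) = inc n (MvPolynomial.aeval (fun j : Fin n => ∑ k : Fin n, A j k •
        (MvPolynomial.X k : MvPolynomial (Fin n) ℂ)) p) := by
  have h : (sub A).comp (inc n) = (inc n).comp (MvPolynomial.aeval (fun j : Fin n =>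
      ∑ k : Fin n, A j k • (MvPolynomial.X k : MvPolynomial (Fin n) ℂ))) := by
    apply MvPolynomial.algHom_ext
    intro i
    rw [AlgHom.comp_apply, AlgHom.comp_apply, inc_X, sub_X, MvPolynomial.aeval_X, map_sum]
    refine Finset.sum_congr rfl fun k _ => ?_
    rw [map_smul, inc_X]
  exact DFunLike.congr_fun h p

theorem sub_mem (x : MvPowerSeries (Fin n) ℂ)
    (hx : x ∈ IsLocalRing.maximalIdeal (MvPowerSeries (Fin n) ℂ)) :
    sub A x ∈ IsLocalRing.maximalIdeal (MvPowerSeries (Fin n) ℂ) := by
  have h1 := Ideal.mem_map_of_mem (sub A : MvPowerSeries (Fin n) ℂ →+* MvPowerSeries (Fin n) ℂ) hx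
  rw [← span_X_eq, Ideal.map_span] at h1
  refine (Ideal.span_le.2 ?_) h1
  rintro _ ⟨_, ⟨i, rfl⟩, rfl⟩
  change sub A (X i) ∈ _
  rw [sub_X]
  exact Ideal.sum_mem _ fun k _ => smul_mem' _ _ (X_mem k)

end lin

/-- a matrix applied to a vector of elements -/
noncomputable def act {n : ℕ} (P : Matrix (Fin n) (Fin n) ℂ) (v : Fin n → MvPowerSeries (Fin n) ℂ) :
    Fin n → MvPowerSeries (Fin n) ℂ := fun i => ∑ j, P i j • v j

theorem act_act {n : ℕ} (P Q : Matrix (Fin n) (Fin n) ℂ) (v : Fin n → MvPowerSeries (Fin n) ℂ) :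
    act P (act Q v) = act (P * Q) v := by
  funext i
  simp only [act, Matrix.mul_apply, Finset.smul_sum, Finset.sum_smul, smul_smul]
  rw [Finset.sum_comm]

theorem act_one {n : ℕ} (v : Fin n → MvPowerSeries (Fin n) ℂ) : act 1 v = v := by
  funext i
  simp only [act, Matrix.one_apply]
  rw [Finset.sum_eq_single i]
  · simp
  · intro j _ hj
    rw [if_neg (Ne.symm hj), zero_smul]
  · simp

theorem act_mem {n : ℕ} (P : Matrix (Fin n) (Fin n) ℂ) (v : Fin n → MvPowerSeries (Fin n) ℂ)
    (J : Ideal (MvPowerSeries (Fin n) ℂ)) (h : ∀ i, v i ∈ J) (i : Fin n) : act P v i ∈ J :=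
  Ideal.sum_mem _ fun k _ => smul_mem' _ _ (h k)

theorem span_act {n : ℕ} (P Q : Matrix (Fin n) (Fin n) ℂ) (hQP : Q * P = 1)
    (v : Fin n → MvPowerSeries (Fin n) ℂ) :
    Ideal.span (Set.range (act P v)) = Ideal.span (Set.range v) := by
  apply le_antisymm
  · rw [Ideal.span_le]
    rintro _ ⟨i, rfl⟩
    exact act_mem P v _ (fun j => Ideal.subset_span (Set.mem_range_self j)) i
  · rw [Ideal.span_le]
    rintro _ ⟨i, rfl⟩
    have h1 : v i = act Q (act P v) i := by rw [act_act, hQP, act_one]
    rw [SetLike.mem_coe, h1]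
    exact act_mem Q _ _ (fun j => Ideal.subset_span (Set.mem_range_self j)) i

/-- the main computation for one matrix of finite order -/
theorem main {n m : ℕ} (hm : 0 < m) (A : Matrix (Fin n) (Fin n) ℂ) (hA : A ^ m = 1)
    (f : Fin n → MvPolynomial (Fin n) ℂ)
    (heq : ∀ i : Fin n,
      MvPolynomial.aeval
          (fun j : Fin n => ∑ k : Fin n, A j k • (MvPolynomial.X k : MvPolynomial (Fin n) ℂ))
          (f i)
        = ∑ j : Fin n, A i j • f j)
    (h0 : ∀ i : Fin n, MvPolynomial.constantCoeff (f i) = 0)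
    (hfin : Module.Finite ℂ (MvPowerSeries (Fin n) ℂ ⧸
      Ideal.span (Set.range (fun i : Fin n => (f i : MvPowerSeries (Fin n) ℂ)))))
    (T : (MvPowerSeries (Fin n) ℂ ⧸
          Ideal.span (Set.range (fun i : Fin n => (f i : MvPowerSeries (Fin n) ℂ))))
        →ₐ[ℂ] (MvPowerSeries (Fin n) ℂ ⧸
          Ideal.span (Set.range (fun i : Fin n => (f i : MvPowerSeries (Fin n) ℂ)))))
    (hT : ∀ i : Fin n,
        T (Ideal.Quotient.mk
            (Ideal.span (Set.range (fun i : Fin n => (f i : MvPowerSeries (Fin n) ℂ))))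
            (MvPowerSeries.X i))
          = Ideal.Quotient.mk
            (Ideal.span (Set.range (fun i : Fin n => (f i : MvPowerSeries (Fin n) ℂ))))
            (∑ j : Fin n, A i j • (MvPowerSeries.X j : MvPowerSeries (Fin n) ℂ))) :
    LinearMap.trace ℂ
          (MvPowerSeries (Fin n) ℂ ⧸
            Ideal.span (Set.range (fun i : Fin n => (f i : MvPowerSeries (Fin n) ℂ))))
          T.toLinearMap
        = ((Module.finrank ℂ
            (MvPowerSeries (Fin n) ℂ ⧸
              Ideal.span (Set.range (fun i : Fin n => (f i : MvPowerSeries (Fin n) ℂ)) ∪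
                Set.range (fun i : Fin n =>
                  ∑ j : Fin n, (A - 1) i j • (MvPowerSeries.X j : MvPowerSeries (Fin n) ℂ)))))
            : ℂ) := by
  classical
  obtain ⟨P, Q, l, hPQ, hQP, hPA⟩ := exists_diag hm A hA
  -- the two vectors
  let fv : Fin n → MvPowerSeries (Fin n) ℂ := fun i => (f i : MvPowerSeries (Fin n) ℂ)
  let xv : Fin n → MvPowerSeries (Fin n) ℂ := fun i => X i
  have hPAact : ∀ v : Fin n → MvPowerSeries (Fin n) ℂ, ∀ i, act P (act A v) i = l i • act P v i := by
    intro v i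
    rw [act_act]
    simp only [act, Finset.smul_sum]
    refine Finset.sum_congr rfl fun j _ => ?_
    rw [hPA, mul_smul]
  have hσact : ∀ (B : Matrix (Fin n) (Fin n) ℂ) (v w : Fin n → MvPowerSeries (Fin n) ℂ),
      (∀ i, sub A (v i) = w i) → ∀ i, sub A (act B v i) = act B w i := by
    intro B v w h i
    simp only [act, map_sum, map_smul, h]
  have hσf : ∀ i, sub A (fv i) = act A fv i := by
    intro i
    have h1 := sub_inc A (f i)
    rw [heq, map_sum] at h1
    simp only [map_smul, inc_apply] at h1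
    exact h1
  have hσx : ∀ i, sub A (xv i) = act A xv i := fun i => sub_X A i
  let F := act P fv
  let Y := act P xv
  have hσF : ∀ i, sub A (F i) = l i • F i := fun i => by
    rw [hσact P fv _ hσf i, hPAact]
  have hσY : ∀ i, sub A (Y i) = l i • Y i := fun i => by
    rw [hσact P xv _ hσx i, hPAact]
  have hfm : ∀ i, fv i ∈ IsLocalRing.maximalIdeal (MvPowerSeries (Fin n) ℂ) := by
    intro i
    rw [IsLocalRing.mem_maximalIdeal, mem_nonunits_iff, isUnit_iff_constantCoeff,
      isUnit_iff_ne_zero, not_not]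
    have := h0 i
    rw [MvPolynomial.constantCoeff_eq] at this
    rw [← coeff_zero_eq_constantCoeff_apply]
    simpa [fv] using this
  have hspanF : Ideal.span (Set.range F) = Ideal.span (Set.range fv) := span_act P Q hQP fv
  have hF : IsSop ℂ F := by
    refine ⟨act_mem P fv _ hfm, ?_⟩
    rw [hspanF]
    exact hfin
  -- the ideal of the fixed space
  let J : Ideal (MvPowerSeries (Fin n) ℂ) := Ideal.span (Y '' {j | l j ≠ 1})
  have hlin : ∀ i, sub A (xv i) - xv i ∈ J := by
    intro i
    have h1 : xv = act Q Y := by rw [act_act, hQP, act_one]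
    have h2 : sub A (xv i) - xv i = ∑ j, (Q i j * (l j - 1)) • Y j := by
      have h3 : sub A (act Q Y i) = act Q (fun j => l j • Y j) i := hσact Q Y _ hσY i
      have h4 : sub A (xv i) = act Q (fun j => l j • Y j) i := by
        rw [← h3, ← h1]
      have h5 : xv i = act Q Y i := by rw [← h1]
      rw [h4, h5]
      simp only [act]
      rw [← Finset.sum_sub_distrib]
      refine Finset.sum_congr rfl fun j _ => ?_
      rw [smul_smul, ← sub_smul]
      congr 1
      ring
    rw [h2]
    refine Ideal.sum_mem _ fun j _ => ?_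
    by_cases hj : l j = 1
    · rw [hj, sub_self, mul_zero, zero_smul]
      exact Ideal.zero_mem _
    · exact smul_mem' _ _ (Ideal.subset_span ⟨j, hj, rfl⟩)
  have hpoly : ∀ p : MvPolynomial (Fin n) ℂ, sub A (inc n p) - inc n p ∈ J := by
    intro p
    have h : ((Ideal.Quotient.mkₐ ℂ J).comp (sub A)).comp (inc n) =
        (Ideal.Quotient.mkₐ ℂ J).comp (inc n) := by
      apply MvPolynomial.algHom_ext
      intro i
      rw [AlgHom.comp_apply, AlgHom.comp_apply, AlgHom.comp_apply, inc_X, Ideal.Quotient.mkₐ_eq_mk]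
      exact (Ideal.Quotient.eq).2 (hlin i)
    have h1 := DFunLike.congr_fun h p
    exact (Ideal.Quotient.eq).1 h1
  have hFJ : ∀ i, l i ≠ 1 → F i ∈ J := by
    intro i hi
    have h1 : F i = inc n (∑ j, P i j • f j) := by
      rw [map_sum]
      rfl
    have h2 := hpoly (∑ j, P i j • f j)
    rw [← h1, hσF] at h2
    have h3 : l i • F i - F i = (l i - 1) • F i := by rw [sub_smul, one_smul]
    rw [h3] at h2
    have h4 := smul_mem' J (l i - 1)⁻¹ h2
    rwa [inv_smul_smul₀ (sub_ne_zero.2 hi)] at h4
  -- the second system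
  let b : Fin n → MvPowerSeries (Fin n) ℂ := fun i => if l i = 1 then F i else Y i
  have hσb : ∀ i, sub A (b i) = l i • b i := by
    intro i
    by_cases hi : l i = 1
    · simp only [b, if_pos hi]
      exact hσF i
    · simp only [b, if_neg hi]
      exact hσY i
  have hJb : J ≤ Ideal.span (Set.range b) := by
    rw [Ideal.span_le]
    rintro _ ⟨j, hj, rfl⟩
    apply Ideal.subset_span
    exact ⟨j, by simp only [b]; rw [if_neg hj]⟩
  have hFb : ∀ i, F i ∈ Ideal.span (Set.range b) := by
    intro i
    by_cases hi : l i = 1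
    · apply Ideal.subset_span
      exact ⟨i, by simp only [b]; rw [if_pos hi]⟩
    · exact hJb (hFJ i hi)
  have hfinb : Module.Finite ℂ (MvPowerSeries (Fin n) ℂ ⧸ Ideal.span (Set.range b)) := by
    have h1 : Ideal.span (Set.range F) ≤ Ideal.span (Set.range b) := by
      rw [Ideal.span_le]
      rintro _ ⟨i, rfl⟩
      exact hFb i
    have h2 := hF.2
    exact Module.Finite.of_surjective (Ideal.Quotient.factorₐ ℂ h1).toLinearMap
      (Ideal.Quotient.factor_surjective h1)
  have hb : IsSop ℂ b := by
    refine ⟨fun i => ?_, hfinb⟩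
    by_cases hi : l i = 1
    · simp only [b, if_pos hi]
      exact hF.1 i
    · simp only [b, if_neg hi]
      exact act_mem P xv _ (fun j => X_mem j) i
  have hcmp := tr_eq_of_weights (K := ℂ) (sub A)
    (List.ofFn fun j : Fin n => (X j : MvPowerSeries (Fin n) ℂ)) (by simp) (by
      intro r hr
      rw [List.mem_ofFn] at hr
      obtain ⟨j, rfl⟩ := hr
      exact X_mem j) (isRegular_X ℂ n) l (Finset.univ.filter fun i => l i ≠ 1) F b hF hb hσF hσb
    (by
      intro i hi
      have hi' : l i = 1 := by simpa using hi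
      simp only [b]
      rw [if_pos hi'])
    (by
      intro i hi
      simpa using hi)
  -- the left side
  have hstab : Ideal.span (Set.range fv) ≤ (Ideal.span (Set.range fv)).comap (sub A) := by
    rw [Ideal.span_le]
    rintro _ ⟨i, rfl⟩
    rw [SetLike.mem_coe, Ideal.mem_comap, hσf]
    exact act_mem A fv _ (fun j => Ideal.subset_span (Set.mem_range_self j)) i
  have hleft : LinearMap.trace ℂ _ T.toLinearMap = tr (sub A) (Ideal.span (Set.range F)) := by
    rw [hspanF, tr_eq _ _ hstab]
    congr 1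
    have h1 : T.comp (Ideal.Quotient.mkₐ ℂ (Ideal.span (Set.range fv))) =
        (Ideal.Quotient.mkₐ ℂ (Ideal.span (Set.range fv))).comp (sub A) := by
      apply algHom_eq
      · intro i
        rw [AlgHom.comp_apply, AlgHom.comp_apply, Ideal.Quotient.mkₐ_eq_mk, sub_X]
        exact hT i
      · intro i
        rw [AlgHom.comp_apply, Ideal.Quotient.mkₐ_eq_mk]
        have h2 := hT i
        rw [← sub_X] at h2
        change IsNilpotent (T (Ideal.Quotient.mk (Ideal.span (Set.range fv)) (X i)))
        have h3 : T (Ideal.Quotient.mk (Ideal.span (Set.range fv)) (X i)) =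
          Ideal.Quotient.mk (Ideal.span (Set.range fv)) (sub A (X i)) := h2
        rw [h3]
        exact isNilpotent_mk _ hfin _ (sub_mem A _ (X_mem i))
    apply LinearMap.ext
    intro x
    obtain ⟨x, rfl⟩ := Ideal.Quotient.mk_surjective x
    exact DFunLike.congr_fun h1 x
  -- the right side
  have hIeq : Ideal.span (Set.range (fun i : Fin n => (f i : MvPowerSeries (Fin n) ℂ)) ∪
                Set.range (fun i : Fin n =>
                  ∑ j : Fin n, (A - 1) i j • (MvPowerSeries.X j : MvPowerSeries (Fin n) ℂ))) =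
      Ideal.span (Set.range b) := by
    have hlin' : ∀ i, (∑ j : Fin n, (A - 1) i j • (MvPowerSeries.X j : MvPowerSeries (Fin n) ℂ)) =
        sub A (xv i) - xv i := by
      intro i
      have h1 : sub A (xv i) - xv i = act A xv i - act 1 xv i := by rw [hσx, act_one]
      rw [h1]
      simp only [act]
      rw [← Finset.sum_sub_distrib]
      refine Finset.sum_congr rfl fun j _ => ?_
      rw [← sub_smul, Matrix.sub_apply]
    apply le_antisymm
    · rw [Ideal.span_le, Set.union_subset_iff]
      constructor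
      · have h1 : Ideal.span (Set.range fv) ≤ Ideal.span (Set.range b) := by
          rw [← hspanF, Ideal.span_le]
          rintro _ ⟨i, rfl⟩
          exact hFb i
        exact fun x hx => h1 (Ideal.subset_span hx)
      · rintro _ ⟨i, rfl⟩
        simp only [hlin']
        exact hJb (hlin i)
    · rw [Ideal.span_le]
      rintro _ ⟨i, rfl⟩
      by_cases hi : l i = 1
      · simp only [b, if_pos hi]
        have h1 : F i ∈ Ideal.span (Set.range fv) := by
          rw [← hspanF]
          exact Ideal.subset_span ⟨i, rfl⟩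
        exact Ideal.span_mono Set.subset_union_left h1
      · simp only [b, if_neg hi]
        have h1 : (l i - 1) • Y i = act P (fun k => sub A (xv k) - xv k) i := by
          have h2 : act P (fun k => sub A (xv k) - xv k) i = sub A (Y i) - Y i := by
            change ∑ j, P i j • (sub A (xv j) - xv j) = sub A (∑ j, P i j • xv j) - ∑ j, P i j • xv j
            rw [map_sum, ← Finset.sum_sub_distrib]
            refine Finset.sum_congr rfl fun j _ => ?_
            rw [map_smul, smul_sub]
          rw [h2, hσY, sub_smul, one_smul]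
        have h3 : (l i - 1) • Y i ∈ Ideal.span (Set.range (fun i : Fin n =>
            (f i : MvPowerSeries (Fin n) ℂ)) ∪ Set.range (fun i : Fin n =>
                  ∑ j : Fin n, (A - 1) i j • (MvPowerSeries.X j : MvPowerSeries (Fin n) ℂ))) := by
          rw [h1]
          apply act_mem
          intro k
          rw [← hlin']
          exact Ideal.subset_span (Or.inr ⟨k, rfl⟩)
        have h4 := smul_mem' _ (l i - 1)⁻¹ h3
        rwa [inv_smul_smul₀ (sub_ne_zero.2 hi)] at h4
  rw [hIeq]
  have hstabb : Ideal.span (Set.range b) ≤ (Ideal.span (Set.range b)).comap (sub A) := by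
    rw [Ideal.span_le]
    rintro _ ⟨i, rfl⟩
    rw [SetLike.mem_coe, Ideal.mem_comap, hσb]
    exact smul_mem' _ _ (Ideal.subset_span ⟨i, rfl⟩)
  have hright : tr (sub A) (Ideal.span (Set.range b)) =
      (Module.finrank ℂ (MvPowerSeries (Fin n) ℂ ⧸ Ideal.span (Set.range b)) : ℂ) := by
    rw [tr_eq _ _ hstabb, ← LinearMap.trace_id]
    congr 1
    have h1 : (Ideal.Quotient.mkₐ ℂ (Ideal.span (Set.range b))).comp (sub A) =
        Ideal.Quotient.mkₐ ℂ (Ideal.span (Set.range b)) := by
      apply algHom_eq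
      · intro i
        rw [AlgHom.comp_apply, Ideal.Quotient.mkₐ_eq_mk]
        exact (Ideal.Quotient.eq).2 (hJb (hlin i))
      · intro i
        rw [AlgHom.comp_apply, Ideal.Quotient.mkₐ_eq_mk]
        exact isNilpotent_mk _ hfinb _ (sub_mem A _ (X_mem i))
    apply LinearMap.ext
    intro x
    obtain ⟨x, rfl⟩ := Ideal.Quotient.mk_surjective x
    exact DFunLike.congr_fun h1 x
  rw [← hright, ← hcmp, ← hleft]

end Pool.Agent.R795.Deg
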